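import Mathlib
import Pool.Agent.Helper5.BK.Map

set_option autoImplicit false

namespace Pool.Agent.Results.MP_5f0000_al.PropertyTOntoPSU3

open Pool.Agent.Helper5.BK

/-- For every prime `p ≥ 5` there is a finitely generated group `G` with Kazhdan's property (T)
(the trivial representation is isolated in the unitary dual; `G` also has a Kazhdan pair) that
maps onto `PSU₃(p ^ (2 ^ k))` for every `k ≥ 1`. These quotients are finite simple groups, and
those with `k = 1, 5, 9, …` are pairwise non-isomorphic. -/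
theorem result.{u} (p : ℕ) [Fact p.Prime] (hp : 5 ≤ p) :
    (∃ (G : Type) (_ : Group G), Group.FG G ∧ HasKazhdanPair.{u} G ∧ PropertyT G ∧
      ∀ k : ℕ, 1 ≤ k → ∃ f : G →* PSU3 p (2 ^ k), Function.Surjective f) ∧
    (∀ k : ℕ, 1 ≤ k → Finite (PSU3 p (2 ^ k)) ∧ IsSimpleGroup (PSU3 p (2 ^ k))) ∧
    ∀ i j : ℕ, i ≠ j → IsEmpty (PSU3 p (2 ^ (4 * i + 1)) ≃* PSU3 p (2 ^ (4 * j + 1))) :=
  ⟨main hp, fun k hk => ⟨(PSU3_facts hp k hk).1, (PSU3_facts hp k hk).2.1⟩,
    fun i j hij => PSU3_not_iso hp i j hij⟩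

end Pool.Agent.Results.MP_5f0000_al.PropertyTOntoPSU3
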